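import Mathlib
import Pool.Agent.Work.MP_95815e_co.Count

open Pool.Agent.Work.MP_95815e_co in
/-- The number of simple permutations of size `n ≥ 3` sortable by two parallel pop stacks
with a bypass is `F_{2n-5} - 1` for odd `n` and `F_{2n-5}` for even `n`. -/
theorem Pool.Agent.Results.MP_95815e_co.Formula.result (n : ℕ) (hn : 3 ≤ n) :
    (Odd n → simpleSortable n = Nat.fib (2 * n - 5) - 1) ∧
    (Even n → simpleSortable n = Nat.fib (2 * n - 5)) :=
  main n hn
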